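import Pool.Agent.Work.MP_6cd513_gt.Final4

/-!
# Maximal sections of the cube: all `1 ≤ k ≤ n`

For all `1 ≤ k ≤ n` and all `k`-dimensional linear subspaces `H` of `ℝ^n` the conjectured bound
`vol_k (Q_n ∩ H) ≤ V(n,k)` holds.
-/

open MeasureTheory

namespace Pool.Agent.Results.MP_6cd513_gt.AllSections

open Pool.Agent.Work.MP_6cd513_gt

/-- For all integers `1 ≤ k ≤ n` and every `k`-dimensional linear subspace `H` of `ℝ^n`
the section `Q_n ∩ H` of the cube `Q_n = [-1/2, 1/2]^n` has `k`-dimensional volume at most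
`V(n,k) = maxVol n k`. -/
theorem result : ∀ n k : ℕ, 1 ≤ k → k ≤ n →
    ∀ H : Submodule ℝ (EuclideanSpace ℝ (Fin n)), Module.finrank ℝ H = k →
      sectionVolume H (cube n) ≤ ENNReal.ofReal (maxVol n k) :=
  fun _ _ hk hn H hH => section_bound2 (frames_bound hk hn) H hH

end Pool.Agent.Results.MP_6cd513_gt.AllSections
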